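import Pool.Agent.H10.Grig

namespace Pool.Agent.Results.MP_40d7e0_al.Depth
open Pool.Agent.H10.Grig

/-- word length with respect to `a, b, c, d` -/
noncomputable def len (g : Equiv.Perm (List Bool)) : ℕ :=
  sInf {n | ∃ l : List (Option (ZMod 3)), l.length = n ∧ (l.map gen).prod = g}

/-- depth: the least level at which all sections lie in `{1, a, b, c, d}` -/
noncomputable def depth (g : Equiv.Perm (List Bool)) : ℕ :=
  sInf {n | ∀ u : List Bool, u.length = n →
    ∃ s ∈ insert 1 (Set.range gen), ∀ w, g (u ++ w) = g u ++ s w}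

theorem red (n : ℕ) : ∀ l : List (Option (ZMod 3)), l.length = n →
    ∃ m, W m = W l ∧ m.length ≤ l.length ∧ m.length ≤ 2 * m.count none + 1 := by
  induction n using Nat.strong_induction_on with | _ n ih =>
  intro l hl
  rcases adj l with ⟨u, x, y, v, rfl⟩ | h
  · by_cases e : x = y
    · obtain ⟨m, h1, h2, h3⟩ := ih _ (by simp [← hl]) (u ++ v) rfl
      exact ⟨m, by simp [W, ← mul_assoc (gen _), gen2, e] at h1 ⊢; exact h1, by
        simp at h2 ⊢; omega, h3⟩
    · obtain ⟨m, h1, h2, h3⟩ := ih _ (by simp [← hl]) (u ++ some (-x - y) :: v) rfl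
      exact ⟨m, by simp [W, ← mul_assoc (gen _), gen3 e] at h1 ⊢; exact h1, by
        simp at h2 ⊢; omega, h3⟩
  · exact ⟨l, rfl, le_rfl, h⟩

theorem sl (j : Bool) (m : List (Option (ZMod 3))) :
    (sec j m).length + m.count none ≤ m.length := by
  induction m with
  | nil => simp [sec]
  | cons x m ih => cases x <;> simp [sec] <;> (try split_ifs <;> simp) <;> omega

theorem up (n : ℕ) : ∀ l : List (Option (ZMod 3)), l.length ≤ 2 ^ n + 1 → ∀ u : List Bool,
    u.length = n + 1 → ∃ s ∈ insert 1 (Set.range gen), ∀ w, W l (u ++ w) = W l u ++ s w := by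
  induction n with
  | zero =>
    rintro l hl (_ | ⟨j, _ | _⟩) ⟨⟩
    obtain ⟨m, h1, h2, h3⟩ := red _ l rfl
    refine ⟨W (sec j m), ?_, fun w => by simp [← h1, act, W_nil]⟩
    have := sl j m
    match sec j m, show (sec j m).length ≤ 1 by omega with
    | [], _ => exact .inl rfl
    | [x], _ => exact .inr ⟨x, by simp [W]⟩
  | succ n ih =>
    rintro l hl (_ | ⟨j, u⟩) hu
    · simp at hu
    obtain ⟨m, h1, h2, h3⟩ := red _ l rfl
    obtain ⟨s, s1, s2⟩ := ih (sec j m) (by have := sl j m; omega) u (by simpa using hu)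
    exact ⟨s, s1, fun w => by simp [← h1, act, s2]⟩

/-- the Lysenok substitution -/
def sub : List (Option (ZMod 3)) → List (Option (ZMod 3))
  | [] => []
  | none :: l => none :: some 1 :: none :: sub l
  | some k :: l => some (k - 1) :: sub l

theorem sub1 (l : List (Option (ZMod 3))) (w : List Bool) :
    W (sub l) (true :: w) = true :: W l w := by
  induction l with
  | nil => rfl
  | cons x l ih =>
    cases x with
    | none => change fa (fg (fa (W (sub l) _)) 1) = _; rw [ih]; rfl
    | some k => change fg (W (sub l) _) (k - 1) = _; rw [ih, fg, sub_add_cancel]; rfl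

theorem sub2 (l : List (Option (ZMod 3))) : (sub l).count none = 2 * l.count none ∧
    (sub l).length = l.length + 2 * l.count none := by
  induction l with
  | nil => simp [sub]
  | cons x l ih => cases x <;> simp [sub] <;> omega

theorem low (n : ℕ) : (sub^[n] [none, some 0]).count none = 2 ^ n ∧
    (sub^[n] [none, some 0]).length = 2 ^ (n + 1) ∧
    W (sub^[n] [none, some 0]) ∉ insert 1 (Set.range gen) := by
  induction n with
  | zero =>
    refine ⟨rfl, rfl, ?_⟩
    rintro (h | ⟨x, h⟩) <;> have := congrArg (· [false, false]) h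
    · exact absurd this (by decide)
    · exact absurd this (by clear h this; revert x; decide)
  | succ n ih =>
    rw [Function.iterate_succ_apply']
    refine ⟨by rw [(sub2 _).1, ih.1, pow_succ'], by rw [(sub2 _).2, ih.1, ih.2.1]; ring, ?_⟩
    rintro (h | ⟨_ | k, h⟩)
    · exact ih.2.2 (.inl (Equiv.ext fun w => by simpa [h] using (sub1 (sub^[n] [none, some 0]) w).symm))
    · simpa [← h, gen, fa] using sub1 (sub^[n] [none, some 0]) []
    · exact ih.2.2 (.inr ⟨some (k + 1), Equiv.ext fun w => by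
        simpa [← h, gen, fg] using sub1 (sub^[n] [none, some 0]) w⟩)

theorem dp (m : ℕ) : ∀ l w, W (sub^[m] l) (List.replicate m true ++ w) =
    List.replicate m true ++ W l w := by
  induction m with
  | zero => simp
  | succ m ih => intro l w; simp [Function.iterate_succ_apply', List.replicate_succ, sub1, ih]

/-- The optimal constant in the upper bound for depth in terms of word length is `1`. -/
theorem result : IsLeast {r : ℝ | ∃ c : ℝ, ∀ g ∈ Subgroup.closure (Set.range gen), g ≠ 1 →
    (depth g : ℝ) ≤ r * Real.logb 2 (len g) + c} 1 := by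
  have w : ∀ g ∈ G, ∃ l, l.length = len g ∧ W l = g := fun g hg => Nat.sInf_mem (s := {n | ∃ l :
      List (Option (ZMod 3)), l.length = n ∧ (l.map gen).prod = g}) (by
    obtain ⟨l, h⟩ : ∃ l, g = W l := by
      induction hg using Subgroup.closure_induction'' with
      | one => exact ⟨[], rfl⟩
      | mem s hs => obtain ⟨x, rfl⟩ := hs; exact ⟨[x], by simp [W]⟩
      | inv_mem s hs =>
        obtain ⟨x, rfl⟩ := hs; exact ⟨[x], by simp [W, inv_eq_of_mul_eq_one_right (gen2 x)]⟩
      | mul x y _ _ hx hy =>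
        obtain ⟨l, h⟩ := hx; obtain ⟨m, h'⟩ := hy
        exact ⟨l ++ m, by rw [W_app, ← h, ← h']⟩
    exact ⟨_, l, rfl, h.symm⟩)
  have p : ∀ g ∈ G, g ≠ 1 → len g ≠ 0 := fun g hg h1 h => by
    obtain ⟨l, h2, rfl⟩ := w g hg
    exact h1 (by rw [List.length_eq_zero_iff.1 (h2.trans h)]; rfl)
  refine ⟨⟨2, fun g hg h1 => ?_⟩, fun r ⟨c, h⟩ => not_lt.1 fun hr => ?_⟩
  · obtain ⟨l, h2, h3⟩ := w g hg
    have : depth g ≤ Nat.log 2 (len g) + 1 + 1 := Nat.sInf_le (h3 ▸ up _ l (by
      have := Nat.lt_pow_succ_log_self one_lt_two (len g)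
      rw [h2, h3]; exact this.le.trans (Nat.le_succ _)))
    have : (depth g : ℝ) ≤ Nat.log 2 (len g) + 1 + 1 := by exact_mod_cast this
    linarith [show (Nat.log 2 (len g) : ℝ) ≤ Real.logb 2 (len g) from Real.natLog_le_logb _ 2]
  obtain ⟨n, hn⟩ := exists_nat_gt (c / (1 - max r 0))
  have m1 : max r 0 < 1 := max_lt hr one_pos
  rw [div_lt_iff₀ (by linarith)] at hn
  obtain ⟨-, l1, l2⟩ := low n
  set l := sub^[n] [none, some 0] with hl
  have hg : W l ∈ G := list_prod_mem (by
    simp only [List.mem_map]; rintro _ ⟨x, -, rfl⟩; exact Subgroup.subset_closure ⟨x, rfl⟩)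
  have g1 : W l ≠ 1 := fun e => l2 (.inl e)
  have d : n + 1 ≤ depth (W l) := le_csInf ⟨_, up (n + 1) l (by omega)⟩ fun m hm => by
    by_contra hc
    obtain ⟨k, rfl⟩ := Nat.exists_eq_add_of_le (show m ≤ n by omega)
    obtain ⟨s, s1, s2⟩ := hm (List.replicate m true) (by simp)
    refine (low k).2.2 (by
      convert s1
      ext w : 1
      have := dp m (sub^[k] [none, some 0]) []
      rw [List.append_nil, W_nil, List.append_nil] at this
      simpa [hl, Function.iterate_add_apply, dp, this] using s2 w)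
  have d : (n : ℝ) + 1 ≤ depth (W l) := by exact_mod_cast d
  have e : Real.logb 2 (len (W l)) ≤ n + 1 := by
    rw [Real.logb_le_iff_le_rpow one_lt_two (by exact_mod_cast Nat.pos_of_ne_zero (p _ hg g1))]
    exact_mod_cast (Nat.sInf_le ⟨l, l1, rfl⟩ : len (W l) ≤ _)
  have e0 : 0 ≤ Real.logb 2 (len (W l)) := Real.logb_nonneg one_lt_two (by
    exact_mod_cast Nat.pos_of_ne_zero (p _ hg g1))
  nlinarith [h _ hg g1, le_max_left r 0, le_max_right r 0, mul_le_mul_of_nonneg_left e
    (le_max_right r 0), mul_le_mul_of_nonneg_right (le_max_left r 0) e0]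

end Pool.Agent.Results.MP_40d7e0_al.Depth
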